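import Pool.Agent.HG17.Final

/-!
# Hamiltonian cycles in the generating graph: large powers of a simple group

A finite group `G` has a normal subgroup isomorphic to `T^m`, `T` a nonabelian finite simple group,
`m >= 12 (clog_2 |T|)^2`. Then the generating graph of `G` has a Hamiltonian cycle if and only if it
has no isolated vertex.
-/

set_option autoImplicit false

namespace Pool.Agent.Results.MP_eafb04_al.LargePowers

theorem result {G : Type*} [Group G] [Fintype G] [DecidableEq G] {T : Type*} [Group T]
    [Finite T] [IsSimpleGroup T] (hT : ∃ a b : T, a * b ≠ b * a) (N : Subgroup G) [N.Normal]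
    {m : ℕ} (e : N ≃* (Fin m → T)) (hm : 12 * Nat.clog 2 (Nat.card T) ^ 2 ≤ m) :
    (SimpleGraph.fromRel (fun x y : {g : G // g ≠ 1} =>
      Subgroup.closure ({(x : G), (y : G)} : Set G) = ⊤)).IsHamiltonian ↔
    ∀ x : G, x ≠ 1 → ∃ y : G, Subgroup.closure ({x, y} : Set G) = ⊤ :=
  HG17.main hT N e hm

end Pool.Agent.Results.MP_eafb04_al.LargePowers
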